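import Pool.Agent.Y354.DC3.Stm

/-! Project DC3: relations between a tuple and the tuple without an entry; exchange lemma. -/

set_option autoImplicit false

open Finset
open scoped Classical

namespace Pool.Agent.Y858.DC3

open Pool.Agent.Y354.DC3

theorem s_al : S_AL := by
  intro V N hN k i x
  obtain ⟨h12, h23⟩ := hN
  refine ⟨⟨fun h => ⟨?_, ?_⟩, ?_⟩, fun v => ⟨fun h => ⟨?_, ?_⟩, ?_⟩, fun v u => ⟨?_, ?_⟩⟩
  · intro a b c hab hac hbc
    exact h _ _ _ (fun e => hab (Fin.succAbove_right_injective e))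
      (fun e => hac (Fin.succAbove_right_injective e))
      (fun e => hbc (Fin.succAbove_right_injective e))
  · intro a b hab
    exact h _ _ _ (Fin.succAbove_ne i a).symm (Fin.succAbove_ne i b).symm
      (fun e => hab (Fin.succAbove_right_injective e))
  · rintro ⟨h1, h2⟩ a b c hab hac hbc hcon
    rcases Fin.eq_self_or_eq_succAbove i a with rfl | ⟨a, rfl⟩
    · rcases Fin.eq_self_or_eq_succAbove a b with rfl | ⟨b, rfl⟩
      · exact hab rfl
      · rcases Fin.eq_self_or_eq_succAbove a c with rfl | ⟨c, rfl⟩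
        · exact hac rfl
        · exact h2 b c (fun e => hbc (by rw [e])) hcon
    · rcases Fin.eq_self_or_eq_succAbove i b with rfl | ⟨b, rfl⟩
      · rcases Fin.eq_self_or_eq_succAbove b c with rfl | ⟨c, rfl⟩
        · exact hbc rfl
        · exact h2 a c (fun e => hac (by rw [e])) (h12 _ _ _ hcon)
      · rcases Fin.eq_self_or_eq_succAbove i c with rfl | ⟨c, rfl⟩
        · exact h2 a b (fun e => hab (by rw [e])) (h12 _ _ _ (h23 _ _ _ hcon))
        · exact h1 a b c (fun e => hab (by rw [e])) (fun e => hac (by rw [e]))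
            (fun e => hbc (by rw [e])) hcon
  · intro a b hab
    exact h _ _ (fun e => hab (Fin.succAbove_right_injective e))
  · rintro ⟨l, hl⟩
    exact h _ _ (Fin.succAbove_ne i l).symm (h12 _ _ _ hl)
  · rintro ⟨h1, h2⟩ a b hab hcon
    rcases Fin.eq_self_or_eq_succAbove i a with rfl | ⟨a, rfl⟩
    · rcases Fin.eq_self_or_eq_succAbove a b with rfl | ⟨b, rfl⟩
      · exact hab rfl
      · exact h2 ⟨b, h12 _ _ _ hcon⟩
    · rcases Fin.eq_self_or_eq_succAbove i b with rfl | ⟨b, rfl⟩
      · exact h2 ⟨a, h12 _ _ _ (h23 _ _ _ hcon)⟩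
      · exact h1 a b (fun e => hab (by rw [e])) hcon
  · rintro ⟨l, hl⟩
    rcases Fin.eq_self_or_eq_succAbove i l with rfl | ⟨l, rfl⟩
    · exact Or.inr hl
    · exact Or.inl ⟨l, hl⟩
  · rintro (⟨l, hl⟩ | h)
    · exact ⟨i.succAbove l, hl⟩
    · exact ⟨i, h⟩

theorem I_and (p q : Prop) : I (p ∧ q) = I p * I q := by
  unfold I
  by_cases hp : p <;> by_cases hq : q <;> simp [hp, hq]

theorem s_ex : S_EX := by
  intro V _ μ N hN k i F
  unfold E
  rw [← (Fin.insertNthEquiv (fun _ => V) i).sum_comp, Fintype.sum_prod_type, Finset.sum_comm]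
  refine sum_congr rfl fun y _ => ?_
  rw [mul_sum]
  refine sum_congr rfl fun w _ => ?_
  have e0 : (Fin.insertNthEquiv (fun _ => V) i) (w, y) = Fin.insertNth i w y := rfl
  rw [e0]
  have e1 : (Fin.insertNth i w y : Fin (k + 1) → V) i = w :=
    Fin.insertNth_apply_same (α := fun _ => V) i w y
  have e2 : rm (Fin.insertNth i w y : Fin (k + 1) → V) i = y := by
    funext j
    exact Fin.insertNth_apply_succAbove (α := fun _ => V) i w y j
  have e3 : I (Ind N (Fin.insertNth i w y : Fin (k + 1) → V)) = I (Ind N y) * I (Al N y w) := by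
    rw [← I_and]
    congr 1
    have h := (s_al V N hN k i (Fin.insertNth i w y : Fin (k + 1) → V)).1
    rw [e1, e2] at h
    exact propext h
  have e4 : ∏ j, μ ((Fin.insertNth i w y : Fin (k + 1) → V) j) = μ w * ∏ j, μ (y j) := by
    rw [Fin.prod_univ_succAbove _ i, e1]
    congr 1
    exact prod_congr rfl fun j _ => by
      rw [Fin.insertNth_apply_succAbove (α := fun _ => V) i w y j]
  show I (Ind N (Fin.insertNth i w y : Fin (k + 1) → V)) *
      (∏ j, μ ((Fin.insertNth i w y : Fin (k + 1) → V) j)) *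
        F (rm (Fin.insertNth i w y : Fin (k + 1) → V) i)
          ((Fin.insertNth i w y : Fin (k + 1) → V) i) =
    (I (Ind N y) * ∏ i, μ (y i)) * (μ w * I (Al N y w) * F y w)
  rw [e1, e2, e3, e4]
  ring

end Pool.Agent.Y858.DC3
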